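import Pool.Agent.H89.POT.Fw

/-!
# From the laws at the worlds to the joint law

`DF_avg`: the deficit is the average of the deficits at the values of the context.
`DF_drop`: less context, less deficit. `DF_info`: the price of more context.
`body_w`: see `Fw.lean`.
-/

set_option autoImplicit false

namespace Pool.POT89

open Finset Real
open Matrix
open Pool.Agent.H49.Ent Pool.Agent.H32.Dense Pool.STK Pool.FAD Pool.POT Pool.KS6 Pool.RC21
open Pool.BFL (Pb)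
open Pool.ST79 (CH_cond_avg Ex_supp Pb_eq)

variable {c : ℕ} {Ω ζ ζ' τ Ee S : Type} [Fintype Ω] {p : Ω → ℝ}

/-- The deficit is an average over the values of the context. -/
theorem DF_avg (hp : ∀ ω, 0 ≤ p ω) (X : ℕ) {V : Ω → Matrix (Fin c) (Fin c) ℝ}
    (x : Ω → Fin c → ℝ) {Z : Ω → ζ} (hV : Det p Z V) :
    DF p (fun _ => Tx c X) V x Z =
      Ex p (fun ω => DF (cond p Z (Z ω)) (fun _ => Tx c X) (fun _ => V ω) x (fun _ => ())) := by
  unfold DF
  rw [CH_cond_avg hp, ← Ex_sub]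
  refine Ex_supp hp fun ω hω => ?_
  have hl := cond_law hp Z hω
  rw [Ex_const hl.sum_one]
  congr 1
  refine CH_congr hl.nonneg ?_ ?_ ?_ ?_
  · intro w w' _ _ h
    exact (Prod.ext_iff.mp h).1
  · intro w w' _ _ h
    exact (Prod.ext_iff.mp h).1
  · intro w w' hw hw' h
    have a1 := (cond_pos_iff hp Z (Z ω) w).1 hw
    have a2 := (cond_pos_iff hp Z (Z ω) w').1 hw'
    have b1 : V w = V ω := hV w ω a1.1 hω a1.2
    have b2 : V w' = V ω := hV w' ω a2.1 hω a2.2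
    simp only at h
    rw [b1, b2] at h
    exact Prod.ext h rfl
  · intro w w' hw hw' h
    have a1 := (cond_pos_iff hp Z (Z ω) w).1 hw
    have a2 := (cond_pos_iff hp Z (Z ω) w').1 hw'
    have b1 : V w = V ω := hV w ω a1.1 hω a1.2
    have b2 : V w' = V ω := hV w' ω a2.1 hω a2.2
    have h1 := (Prod.ext_iff.mp h).1
    simp only at h1 ⊢
    rw [b1, b2]
    exact h1

/-- Less context, less deficit. -/
theorem DF_drop (hp : ∀ ω, 0 ≤ p ω) (T V : Ω → Matrix (Fin c) (Fin c) ℝ) (x : Ω → Fin c → ℝ)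
    {Z : Ω → ζ} {Z' : Ω → ζ'} (h : Det p Z Z') : DF p T V x Z' ≤ DF p T V x Z := by
  have h1 : CH p (fun ω => cl (T ω) (x ω)) (fun ω => (cl (V ω) (x ω), Z ω)) ≤
      CH p (fun ω => cl (T ω) (x ω)) (fun ω => (cl (V ω) (x ω), Z' ω)) := by
    refine CH_mono_cond hp ?_
    intro w w' hw hw' e
    simp only [Prod.mk.injEq] at e ⊢
    exact ⟨e.1, h w w' hw hw' e.2⟩
  unfold DF
  linarith

/-- The price of more context. -/
theorem DF_info (hp : ∀ ω, 0 ≤ p ω) (X : ℕ) {V : Ω → Matrix (Fin c) (Fin c) ℝ}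
    {x : Ω → Fin c → ℝ} {R : Ω → S} (hx : Det p R x) {e : Ω → Ee} (t : Ω → τ) (hV : Det p e V) :
    DF p (fun _ => Tx c X) V x (fun ω => (t ω, e ω)) ≤ DF p (fun _ => Tx c X) V x e +
      (CH p R e - CH p R (fun ω => (t ω, e ω))) := by
  obtain ⟨a, ha⟩ : ∃ a : Ω → Fin c → ℤ, a = fun ω => cl (Tx c X) (x ω) := ⟨_, rfl⟩
  obtain ⟨b, hb⟩ : ∃ b : Ω → Fin c → ℤ, b = fun ω => cl (V ω) (x ω) := ⟨_, rfl⟩
  have dab : Det p (fun ω => (R ω, e ω)) (fun ω => (a ω, b ω)) := by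
    intro w w' hw hw' h
    have e1 := Prod.ext_iff.mp h
    have x1 : x w = x w' := hx w w' hw hw' e1.1
    have v1 : V w = V w' := hV w w' hw hw' e1.2
    rw [ha, hb]
    simp only
    rw [x1, v1]
  have c1 : CH p a (fun ω => (b ω, e ω)) = CH p (fun ω => (a ω, b ω)) e - CH p b e := by
    rw [CH_chain hp]
    ring
  have c2 : CH p a (fun ω => (b ω, (t ω, e ω))) =
      CH p (fun ω => (a ω, b ω)) (fun ω => (t ω, e ω)) - CH p b (fun ω => (t ω, e ω)) := by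
    rw [CH_chain hp]
    ring
  have c3 : CH p b (fun ω => (t ω, e ω)) ≤ CH p b e :=
    CH_mono_cond hp (fun _ _ _ _ h => (Prod.ext_iff.mp h).2)
  have c4 : CH p R e = CH p (fun ω => (a ω, b ω)) e + CH p R (fun ω => ((a ω, b ω), e ω)) := by
    rw [← CH_chain hp]
    refine CH_congr hp ?_ ?_ (fun _ _ _ _ h => h) (fun _ _ _ _ h => h)
    · intro w w' hw hw' h
      exact Prod.ext (Prod.ext_iff.mp h).1 (dab w w' hw hw' h)
    · intro w w' _ _ h
      exact (Prod.ext_iff.mp (Prod.ext_iff.mp h).1).1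
  have c5 : CH p R (fun ω => (t ω, e ω)) =
      CH p (fun ω => (a ω, b ω)) (fun ω => (t ω, e ω)) +
        CH p R (fun ω => ((a ω, b ω), (t ω, e ω))) := by
    rw [← CH_chain hp]
    refine CH_congr hp ?_ ?_ (fun _ _ _ _ h => h) (fun _ _ _ _ h => h)
    · intro w w' hw hw' h
      simp only [Prod.mk.injEq] at h
      exact Prod.ext h.1 (dab w w' hw hw' (Prod.ext h.1 h.2.2))
    · intro w w' _ _ h
      exact (Prod.ext_iff.mp (Prod.ext_iff.mp h).1).1
  have c6 : CH p R (fun ω => ((a ω, b ω), (t ω, e ω))) ≤ CH p R (fun ω => ((a ω, b ω), e ω)) := by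
    refine CH_mono_cond hp ?_
    intro w w' _ _ h
    simp only [Prod.mk.injEq] at h ⊢
    exact ⟨h.1, h.2.2⟩
  unfold DF
  rw [ha] at c1 c2
  rw [hb] at c1 c2 c3
  rw [ha, hb] at c4 c5 c6
  simp only at c1 c2 c3 c4 c5 c6 ⊢
  rw [c1, c2]
  linarith

theorem Cc_nonneg {a : ℝ} (ha : 0 ≤ a) : 0 ≤ Cc c a := by
  have h1 : 0 ≤ Real.log (2 * ((c : ℝ) + 1) + 1) := Real.log_nonneg (by
    have : (0 : ℝ) ≤ c := Nat.cast_nonneg c
    linarith)
  have h2 : 0 ≤ Real.log (2 + 3 * ((c : ℝ) * a)) := Real.log_nonneg (by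
    have : (0 : ℝ) ≤ c * a := by positivity
    linarith)
  unfold Cc
  positivity

/-- **From the worlds to the joint law.** -/
theorem body_w (hp : IsLaw p) (X : ℕ) (R : Ω → S) {x : Ω → Fin c → ℝ} (hx : Det p R x)
    (e : Ω → Ee) (t : Ω → τ) {A : τ → Matrix (Fin c) (Fin c) ℝ} {K1 : ℝ} (hK : 1 ≤ K1)
    (hA : ∀ t, (A t).det ≠ 0) (hAe : ∀ t i j, |A t i j| ≤ K1)
    (hAi : ∀ t i j, |(A t)⁻¹ i j| ≤ 2 ^ X) {Good : Ee → τ → Prop} {E0 E2 Y : ℝ} (hE0 : 0 ≤ E0)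
    (hY : 0 ≤ Y) {N : ℕ} (hN : Lb c K1 + c * (X * Real.log 2) < (N + 1) * Y)
    (hG : ∀ ω, 0 < p ω → ∀ t', Good (e ω) t' →
      DF (cond p e (e ω)) (fun _ => Tx c X) (fun _ => A t') x (fun _ => ()) ≤ E0)
    (hI : CH p R e - CH p R (fun ω => (t ω, e ω)) ≤ E2) :
    DF p (fun _ => Tx c X) (fun ω => A (t ω)) x (fun ω => (t ω, e ω)) ≤
      N * (E0 + |Csb c|) + E2 + c * Y + (Cc c c + c * Real.log 5) +
        Pb p (fun ω => ¬ Good (e ω) (t ω)) *
          (Lb c K1 + c * (X * Real.log 2) + Cc c ((c : ℝ) + 1)) := by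
  classical
  have hc0 : (0 : ℝ) ≤ c := Nat.cast_nonneg c
  have key : ∀ e' : Ee, ∃ V : Matrix (Fin c) (Fin c) ℝ, V.det ≠ 0 ∧
      (∀ i j, |V⁻¹ i j| ≤ 2 ^ X) ∧ ∀ ω, 0 < p ω → e ω = e' →
        DF (cond p e e') (fun _ => Tx c X) (fun _ => V) x (fun _ => ()) ≤ N * (E0 + |Csb c|) ∧
        ∀ t', Good e' t' → ∀ i j, |(V⁻¹ * A t') i j| ≤ Real.exp Y := by
    intro e'
    by_cases h : ∃ ω, 0 < p ω ∧ e ω = e'
    · obtain ⟨ω, h1, h2⟩ := h
      obtain ⟨V, a1, -, a3, a4, a5⟩ := fek_w (cond_law hp.nonneg e h1) X x hK hA hAe hAi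
        (S := Good (e ω)) hE0 (hG ω h1) hN
      refine ⟨V, a1, a3, fun w _ hw => ?_⟩
      rw [← h2]
      exact ⟨a4, a5⟩
    · exact ⟨Tx c X, Tx_det c X, Tx_inv X, fun w hw hw' => absurd ⟨w, hw, hw'⟩ h⟩
  choose V hV1 hV2 hV3 using key
  have dV : Det p e (fun ω => V (e ω)) := by
    intro w w' _ _ h
    simp only
    rw [h]
  have D1 : DF p (fun _ => Tx c X) (fun ω => V (e ω)) x e ≤ N * (E0 + |Csb c|) := by
    rw [DF_avg hp.nonneg X x dV]
    calc Ex p (fun ω => DF (cond p e (e ω)) (fun _ => Tx c X) (fun _ => V (e ω)) x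
          (fun _ => ())) ≤ Ex p (fun _ => N * (E0 + |Csb c|)) :=
          Ex_mono hp.nonneg fun ω hω => (hV3 (e ω) ω hω rfl).1
      _ = N * (E0 + |Csb c|) := Ex_const hp.sum_one _
  have D2 := DF_info hp.nonneg X hx t dV
  have dV' : Det p (fun ω => (t ω, e ω)) (fun ω => V (e ω)) := by
    intro w w' _ _ h
    simp only [Prod.mk.injEq] at h ⊢
    rw [h.2]
  have dA' : Det p (fun ω => (t ω, e ω)) (fun ω => A (t ω)) := by
    intro w w' _ _ h
    simp only [Prod.mk.injEq] at h ⊢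
    rw [h.1]
  have D3 := DF_avg hp.nonneg X x dV'
  have D4 := DF_avg hp.nonneg X x dA'
  have hC1 : 0 ≤ Cc c (c : ℝ) + c * Real.log 5 := by
    have h1 := Cc_nonneg (c := c) hc0
    have h2 : 0 ≤ Real.log 5 := Real.log_nonneg (by norm_num)
    positivity
  have D5 : Ex p (fun ω => DF (cond p (fun ω => (t ω, e ω)) (t ω, e ω)) (fun _ => Tx c X)
      (fun _ => A (t ω)) x (fun _ => ())) ≤
      Ex p (fun ω => DF (cond p (fun ω => (t ω, e ω)) (t ω, e ω)) (fun _ => Tx c X)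
        (fun _ => V (e ω)) x (fun _ => ()) + (c * Y + (Cc c c + c * Real.log 5)) +
        (Lb c K1 + c * (X * Real.log 2) + Cc c ((c : ℝ) + 1)) *
          ind (¬ Good (e ω) (t ω))) := by
    refine Ex_mono hp.nonneg fun ω hω => ?_
    have hl := cond_law hp.nonneg (fun ω => (t ω, e ω)) hω
    by_cases hg : Good (e ω) (t ω)
    · have h1 := DF_scale hl X x (hA (t ω)) (hV1 (e ω)) hY ((hV3 (e ω) ω hω rfl).2 (t ω) hg)
      have h2 : ind (¬ Good (e ω) (t ω)) = 0 := if_neg (not_not.2 hg)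
      rw [h2, mul_zero, add_zero]
      linarith
    · have h2 : ind (¬ Good (e ω) (t ω)) = 1 := if_pos hg
      rw [h2, mul_one]
      have h3 : DF (cond p (fun ω => (t ω, e ω)) (t ω, e ω)) (fun _ => Tx c X)
          (fun _ => A (t ω)) x (fun _ => ()) ≤ Lb c K1 + c * (X * Real.log 2) := by
        unfold DF
        rw [Ex_const hl.sum_one, lv_Tx]
        have h4 := lv_le (hA (t ω)) (hAe (t ω))
        have h5 := CH_nonneg hl.nonneg (fun ω' => cl (Tx c X) (x ω'))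
          (fun ω' => (cl (A (t ω)) (x ω'), ()))
        linarith
      have h6 := DF_ge hl.nonneg hl.sum_one (T := fun _ => Tx c X) (V := fun _ => V (e ω)) x
        (fun _ => ()) (fun _ _ _ _ _ => rfl) (fun _ _ _ _ _ => rfl) (fun _ => Tx_det c X)
        (fun _ => hV1 (e ω)) (c := (c : ℝ) + 1) (by linarith) (fun _ => inc_of_inv (hV2 (e ω)))
      have h7 : 0 ≤ (c : ℝ) * Y := mul_nonneg hc0 hY
      linarith
  rw [Ex_add, Ex_add, Ex_const hp.sum_one, Ex_smul, ← D3, ← D4, ← Pb_eq] at D5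
  linarith

end Pool.POT89
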