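import Pool.Agent.H21.POT.Sum
import Pool.Agent.H79.QUAD.Tls

/-!
# Fekete in the world (row 366, K_POT, section 4)

`fek_w`: finitely many bodies, all absorbed by one law, lie in a large multiple of one absorbed
body. `body_w`: bodies `A (t)` which are absorbed at the world `e` for every good `t` are absorbed
by the joint law of `x` and `t`, when `t` and the label `R` of `x` are almost independent given the
world.
-/

set_option autoImplicit false

namespace Pool.POT89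

open Finset Real
open Matrix
open Pool.Agent.H49.Ent Pool.Agent.H32.Dense Pool.STK Pool.FAD Pool.POT
open Pool.BFL (Pb)

variable {c : ℕ}

/-- The bound of the logarithm of the volume. -/
noncomputable def Lb (c : ℕ) (K : ℝ) : ℝ := Real.log (c.factorial * K ^ c)

theorem lv_le {K : ℝ} {V : Matrix (Fin c) (Fin c) ℝ} (hV : V.det ≠ 0) (h : ∀ i j, |V i j| ≤ K) :
    lv V ≤ Lb c K := by
  have h1 : |V.det| ≤ c.factorial * K ^ c := by
    have := Matrix.det_le (A := V) (abv := AbsoluteValue.abs) (x := K) (fun i j => h i j)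
    simpa using this
  exact Real.log_le_log (abs_pos.2 hV) h1

theorem DF_self {Ω ζ : Type} [Fintype Ω] {p : Ω → ℝ} (hp : ∀ ω, 0 ≤ p ω) (X : ℕ)
    (x : Ω → Fin c → ℝ) (Z : Ω → ζ) : DF p (fun _ => Tx c X) (fun _ => Tx c X) x Z = 0 := by
  unfold DF
  rw [CH_eq_zero hp (X := fun ω => cl (Tx c X) (x ω))
    (W := fun ω => (cl (Tx c X) (x ω), Z ω)) (fun ω ω' _ _ e => (Prod.ext_iff.mp e).1)]
  simp [Ex]

theorem Tx_entry {K : ℝ} (hK : 1 ≤ K) (X : ℕ) (i j : Fin c) : |Tx c X i j| ≤ K := by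
  rw [Tx, Matrix.diagonal_apply]
  split_ifs
  · rw [abs_of_pos (by positivity)]
    exact (inv_le_one_of_one_le₀ (one_le_pow₀ (by norm_num))).trans hK
  · rw [abs_zero]
    linarith

theorem Tx_inv (X : ℕ) (i j : Fin c) : |(Tx c X)⁻¹ i j| ≤ 2 ^ X := by
  have e : (Tx c X)⁻¹ = Matrix.diagonal fun _ => (2 : ℝ) ^ X := by
    rw [Tx, inv_diag fun _ => by positivity]
    congr 1
    funext i
    exact inv_inv _
  rw [e, Matrix.diagonal_apply]
  split_ifs
  · rw [abs_of_pos (by positivity)]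
  · rw [abs_zero]
    positivity

section fek

variable {Ω τ : Type} [Fintype Ω] {ρ : Ω → ℝ}

/-- The greedy step. -/
theorem fek_aux (hρ : IsLaw ρ) (X : ℕ) (x : Ω → Fin c → ℝ)
    {A : τ → Matrix (Fin c) (Fin c) ℝ} {K1 : ℝ} (hK : 1 ≤ K1) (hA : ∀ t, (A t).det ≠ 0)
    (hAe : ∀ t i j, |A t i j| ≤ K1) (hAi : ∀ t i j, |(A t)⁻¹ i j| ≤ 2 ^ X) {S : τ → Prop} {E0 : ℝ}
    (hE0 : 0 ≤ E0)
    (hS : ∀ t, S t → DF ρ (fun _ => Tx c X) (fun _ => A t) x (fun _ => ()) ≤ E0)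
    {Y : ℝ} : ∀ (N : ℕ) (V : Matrix (Fin c) (Fin c) ℝ), V.det ≠ 0 →
      (∀ i j, |V i j| ≤ K1) → (∀ i j, |V⁻¹ i j| ≤ 2 ^ X) → Lb c K1 - lv V < (N + 1) * Y →
      ∃ V' : Matrix (Fin c) (Fin c) ℝ, V'.det ≠ 0 ∧ (∀ i j, |V' i j| ≤ K1) ∧
        (∀ i j, |V'⁻¹ i j| ≤ 2 ^ X) ∧
        DF ρ (fun _ => Tx c X) (fun _ => V') x (fun _ => ()) ≤
          DF ρ (fun _ => Tx c X) (fun _ => V) x (fun _ => ()) + N * (E0 + |Csb c|) ∧
        ∀ t, S t → ∀ i j, |(V'⁻¹ * A t) i j| ≤ Real.exp Y := by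
  intro N
  induction N with
  | zero =>
    intro V hV hVe hVi hN
    refine ⟨V, hV, hVe, hVi, by simp, ?_⟩
    intro t ht i j
    by_contra hc
    push Not at hc
    have h0 : (V⁻¹ * A t) i j ≠ 0 := by
      intro h
      rw [h, abs_zero] at hc
      exact absurd hc (not_lt.2 (Real.exp_pos _).le)
    have h1 := lv_sb_col X (A t) hV i j h0
    have h2 := lv_le (sb_det X V (A t)) (sb_entry X hK hVe (hAe t))
    have h3 : Y < Real.log |(V⁻¹ * A t) i j| := by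
      rw [Real.lt_log_iff_exp_lt (abs_pos.2 h0)]
      exact hc
    rw [Nat.cast_zero, zero_add, one_mul] at hN
    linarith
  | succ N ih =>
    intro V hV hVe hVi hN
    by_cases hall : ∀ t, S t → ∀ i j, |(V⁻¹ * A t) i j| ≤ Real.exp Y
    · refine ⟨V, hV, hVe, hVi, ?_, hall⟩
      have : 0 ≤ ((N + 1 : ℕ) : ℝ) * (E0 + |Csb c|) := by positivity
      linarith
    · push Not at hall
      obtain ⟨t, ht, i, j, hc⟩ := hall
      have h0 : (V⁻¹ * A t) i j ≠ 0 := by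
        intro h
        rw [h, abs_zero] at hc
        exact absurd hc (not_lt.2 (Real.exp_pos _).le)
      have h1 := lv_sb_col X (A t) hV i j h0
      have h3 : Y < Real.log |(V⁻¹ * A t) i j| := by
        rw [Real.lt_log_iff_exp_lt (abs_pos.2 h0)]
        exact hc
      obtain ⟨V', a1, a2, a3, a4, a5⟩ := ih (sb X V (A t)) (sb_det X V (A t))
        (sb_entry X hK hVe (hAe t)) (sb_inv X V (A t)) (by push_cast at hN; linarith)
      refine ⟨V', a1, a2, a3, ?_, a5⟩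
      have h4 := DF_sb hρ (X := X) (A := fun _ => V) (B := fun _ => A t) x (fun _ => ())
        (fun _ _ _ _ _ => rfl) (fun _ _ _ _ _ => rfl) (fun _ => hV) (fun _ => hA t)
        (fun _ => hVi) (fun _ => hAi t)
      have h5 := hS t ht
      have h6 := le_abs_self (Csb c)
      push_cast
      linarith

/-- **Fekete in the world.** -/
theorem fek_w (hρ : IsLaw ρ) (X : ℕ) (x : Ω → Fin c → ℝ)
    {A : τ → Matrix (Fin c) (Fin c) ℝ} {K1 : ℝ} (hK : 1 ≤ K1) (hA : ∀ t, (A t).det ≠ 0)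
    (hAe : ∀ t i j, |A t i j| ≤ K1) (hAi : ∀ t i j, |(A t)⁻¹ i j| ≤ 2 ^ X) {S : τ → Prop} {E0 : ℝ}
    (hE0 : 0 ≤ E0)
    (hS : ∀ t, S t → DF ρ (fun _ => Tx c X) (fun _ => A t) x (fun _ => ()) ≤ E0)
    {Y : ℝ} {N : ℕ} (hN : Lb c K1 + c * (X * Real.log 2) < (N + 1) * Y) :
    ∃ V : Matrix (Fin c) (Fin c) ℝ, V.det ≠ 0 ∧ (∀ i j, |V i j| ≤ K1) ∧
      (∀ i j, |V⁻¹ i j| ≤ 2 ^ X) ∧
      DF ρ (fun _ => Tx c X) (fun _ => V) x (fun _ => ()) ≤ N * (E0 + |Csb c|) ∧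
      ∀ t, S t → ∀ i j, |(V⁻¹ * A t) i j| ≤ Real.exp Y := by
  obtain ⟨V, a1, a2, a3, a4, a5⟩ := fek_aux hρ X x hK hA hAe hAi hE0 hS N (Tx c X) (Tx_det c X)
    (Tx_entry hK X) (Tx_inv X) (by rw [lv_Tx]; linarith)
  refine ⟨V, a1, a2, a3, ?_, a5⟩
  rw [DF_self hρ.nonneg, zero_add] at a4
  exact a4

/-- The deficit of a body which lies in a large multiple of `V`. -/
theorem DF_scale (hρ : IsLaw ρ) (X : ℕ) (x : Ω → Fin c → ℝ) {A V : Matrix (Fin c) (Fin c) ℝ}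
    (hA : A.det ≠ 0) (hV : V.det ≠ 0) {Y : ℝ} (hY : 0 ≤ Y)
    (h : ∀ i j, |(V⁻¹ * A) i j| ≤ Real.exp Y) :
    DF ρ (fun _ => Tx c X) (fun _ => A) x (fun _ => ()) ≤
      DF ρ (fun _ => Tx c X) (fun _ => V) x (fun _ => ()) + c * Y +
        (Cc c c + c * Real.log 5) := by
  have e0 := Real.exp_pos Y
  obtain ⟨S, hS⟩ : ∃ S, S = Real.exp Y • V := ⟨_, rfl⟩
  have dS : S.det = Real.exp Y ^ c * V.det := by
    rw [hS, Matrix.det_smul, Fintype.card_fin]
  have hSd : S.det ≠ 0 := by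
    rw [dS]
    exact mul_ne_zero (by positivity) hV
  have lS : lv S = lv V + c * Y := by
    unfold lv
    rw [dS, abs_mul, abs_of_pos (by positivity : 0 < Real.exp Y ^ c),
      Real.log_mul (by positivity) (abs_ne_zero.2 hV), Real.log_pow, Real.log_exp]
    ring
  have iS : S⁻¹ = (Real.exp Y)⁻¹ • V⁻¹ := by
    refine Matrix.inv_eq_left_inv ?_
    rw [hS, Matrix.smul_mul, Matrix.mul_smul, smul_smul, inv_mul_cancel₀ e0.ne', one_smul,
      Matrix.nonsing_inv_mul _ (isUnit_iff_ne_zero.2 hV)]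
  have i1 : Inc (c : ℝ) A S := by
    intro i
    calc ∑ j, |(S⁻¹ * A) i j| ≤ ∑ _j : Fin c, (1 : ℝ) := by
          refine Finset.sum_le_sum fun j _ => ?_
          rw [iS, Matrix.smul_mul, Matrix.smul_apply, smul_eq_mul, abs_mul,
            abs_of_pos (inv_pos.2 e0), inv_mul_le_iff₀ e0, mul_one]
          exact h i j
      _ = c := by simp
  have i2 : Inc 1 V S := by
    intro i
    have e1 : S⁻¹ * V = (Real.exp Y)⁻¹ • (1 : Matrix (Fin c) (Fin c) ℝ) := by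
      rw [iS, Matrix.smul_mul, Matrix.nonsing_inv_mul _ (isUnit_iff_ne_zero.2 hV)]
    rw [e1]
    have e2 : ∀ j, |((Real.exp Y)⁻¹ • (1 : Matrix (Fin c) (Fin c) ℝ)) i j| =
        if i = j then (Real.exp Y)⁻¹ else 0 := by
      intro j
      rw [Matrix.smul_apply, smul_eq_mul, Matrix.one_apply]
      split_ifs
      · rw [mul_one, abs_of_pos (inv_pos.2 e0)]
      · rw [mul_zero, abs_zero]
    rw [Finset.sum_congr rfl fun j _ => e2 j, Finset.sum_ite_eq, if_pos (Finset.mem_univ i)]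
    exact inv_le_one_of_one_le₀ (Real.one_le_exp hY)
  have k1 := DF_mono (T := fun _ => Tx c X) (W := fun _ => A) (S := fun _ => S) hρ.nonneg
    hρ.sum_one x (fun _ => ()) (fun _ _ _ _ _ => rfl) (fun _ _ _ _ _ => rfl) (fun _ => hA)
    (fun _ => hSd) (Nat.cast_nonneg c) (fun _ => i1)
  have k2 := mono_abs hρ.nonneg (fun ω => cl (Tx c X) (x ω)) (fun ω => cl S (x ω))
    (fun ω => cl V (x ω)) (fun _ => ())
  have k3 := CH_inc (V := fun _ => V) (W := fun _ => S) hρ.nonneg hρ.sum_one x (fun _ => ())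
    (fun _ _ _ _ _ => rfl) (fun _ _ _ _ _ => rfl) (fun _ => hV) (fun _ => i2)
  have k4 : Ex ρ (fun _ => lv S - lv (Tx c X)) = Ex ρ (fun _ => lv V - lv (Tx c X)) + c * Y := by
    rw [Ex_const hρ.sum_one, Ex_const hρ.sum_one, lS]
    ring
  have k5 : (2 : ℝ) * (1 + 1) + 1 = 5 := by norm_num
  rw [k5] at k3
  unfold DF at k1 ⊢
  rw [k4] at k1
  linarith

end fek

end Pool.POT89
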